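import Pool.Agent.Helper38.GP.GenPoly

/-! Generic coefficients: the direction of the projection avoids a given hypersurface. -/

namespace Pool.Agent.Helper85.R2

open MvPowerSeries Pool.Agent.Helper38.EQ Pool.Agent.Helper38.GP

/-- The indices of the coefficients. -/
abbrev IX (n : ℕ) : Type := Fin n × {ν : Fin (n + 1) →₀ ℕ // ν ≠ 0}

/-- The index of a linear coefficient. -/
noncomputable def ix {n : ℕ} (i : Fin n) (j : Fin (n + 1)) : IX n :=
  (i, ⟨Finsupp.single j 1, by simp⟩)

/-- The matrix of the last columns. -/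
noncomputable def mat {n : ℕ} {R : Type} (a : IX n → R) : Matrix (Fin n) (Fin n) R :=
  Matrix.of fun i j => a (ix i j.succ)

/-- The first column. -/
noncomputable def col {n : ℕ} {R : Type} (a : IX n → R) : Fin n → R :=
  fun i => a (ix i 0)

/-- The vector of the signed minors. -/
noncomputable def mins {n : ℕ} {R : Type} [CommRing R] (a : IX n → R) : Fin (n + 1) → R :=
  Fin.cons (-(mat a).det) ((mat a).cramer (col a))

theorem ix_inj {n : ℕ} {i i' : Fin n} {j j' : Fin (n + 1)}
    (h : ix i j = ix i' j') : i = i' ∧ j = j' := by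
  have h1 := congrArg Prod.fst h
  have h2 := congrArg (fun p : IX n => (p.2 : Fin (n + 1) →₀ ℕ)) h
  exact ⟨h1, Finsupp.single_left_injective one_ne_zero h2⟩

theorem exists_ix {n : ℕ} (L : Fin n → Fin (n + 1) → ℂ) :
    ∃ a : IX n → ℂ, ∀ i j, a (ix i j) = L i j := by
  classical
  refine ⟨fun p => ∑ j : Fin (n + 1), if ix p.1 j = p then L p.1 j else 0, fun i j => ?_⟩
  have h1 : ∀ j' : Fin (n + 1), (if ix (ix i j).1 j' = ix i j then
      L (ix i j).1 j' else 0) = if j' = j then L i j else 0 := by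
    intro j'
    by_cases hj : j' = j
    · subst hj
      rw [if_pos rfl, if_pos]
      · rfl
      · rfl
    · rw [if_neg hj, if_neg]
      intro h
      exact hj (ix_inj h).2
  simp only [h1]
  simp

theorem mins_map {n : ℕ} {R S : Type} [CommRing R] [CommRing S] (f : R →+* S) (a : IX n → R)
    (j : Fin (n + 1)) : f (mins a j) = mins (fun p => f (a p)) j := by
  have hm : f.mapMatrix (mat a) = mat (fun p => f (a p)) := by
    ext i j
    rfl
  refine Fin.cases ?_ (fun j => ?_) j
  · change f (-(mat a).det) = -(mat (fun p => f (a p))).det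
    rw [map_neg, RingHom.map_det, hm]
  · change f ((mat a).cramer (col a) j) = (mat (fun p => f (a p))).cramer (col (fun p => f (a p))) j
    rw [Matrix.cramer_apply, Matrix.cramer_apply, RingHom.map_det]
    congr 1
    ext i k
    rw [RingHom.mapMatrix_apply, Matrix.map_apply, Matrix.updateCol_apply, Matrix.updateCol_apply]
    by_cases hk : k = j
    · rw [if_pos hk, if_pos hk]
      rfl
    · rw [if_neg hk, if_neg hk]
      rfl

theorem exists_mins {n : ℕ} (v : Fin (n + 2) → ℂ) (hv : v 0 ≠ 0) :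
    ∃ a : IX (n + 1) → ℂ, mins a = v := by
  classical
  let M : Matrix (Fin (n + 1)) (Fin (n + 1)) ℂ :=
    Matrix.diagonal (Fin.cons (-v 0) fun _ => 1)
  have hM : M.det = -v 0 := by
    rw [Matrix.det_diagonal, Fin.prod_univ_succ]
    simp
  let w : Fin (n + 1) → ℂ := fun j => (-v 0)⁻¹ * v j.succ
  obtain ⟨a, ha⟩ := exists_ix (fun i => (Fin.cons (M.mulVec w i) (M i) : Fin (n + 2) → ℂ))
  have h1 : mat a = M := by
    ext i j
    exact ha i j.succ
  have h2 : col a = M.mulVec w := by
    ext i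
    exact ha i 0
  refine ⟨a, ?_⟩
  funext j
  refine Fin.cases ?_ (fun j => ?_) j
  · change -(mat a).det = v 0
    rw [h1, hM, neg_neg]
  · change (mat a).cramer (col a) j = v j.succ
    rw [h1, h2, Matrix.cramer_eq_adjugate_mulVec, Matrix.mulVec_mulVec, Matrix.adjugate_mul, hM,
      Matrix.smul_mulVec, Matrix.one_mulVec, Pi.smul_apply, smul_eq_mul]
    exact mul_inv_cancel_left₀ (neg_ne_zero.2 hv) _

theorem mins_ker {n : ℕ} (a : IX n → ℂ) (i : Fin n) :
    ∑ j : Fin (n + 1), a (ix i j) * mins a j = 0 := by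
  rw [Fin.sum_univ_succ]
  have h1 := congrFun (Matrix.mulVec_cramer (mat a) (col a)) i
  have h2 : ((mat a).mulVec ((mat a).cramer (col a))) i
      = ∑ j : Fin n, a (ix i j.succ) * mins a j.succ := rfl
  rw [← h2, h1]
  change a (ix i 0) * -(mat a).det + (mat a).det * a (ix i 0) = 0
  ring

/-- For every nonzero polynomial `G` in the coefficients `a^{(i)}_ν`, `ν ≠ 0`, and every nonzero
polynomial `Q` in the coordinates there are convergent power series `z_i` without constant term,
with `G(a) ≠ 0`, with independent linear parts, and such that the line `l_z` is spanned by a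
vector `v` with `v 0 ≠ 0` and `Q(v) ≠ 0`. -/
theorem exists_generic_of {n : ℕ} (G : MvPolynomial (IX (n + 1)) ℂ) (hG : G ≠ 0)
    (Q : MvPolynomial (Fin (n + 2)) ℂ) (hQ : Q ≠ 0) :
    ∃ (z : Fin (n + 1) → MvPowerSeries (Fin (n + 2)) ℂ) (v : Fin (n + 2) → ℂ),
      (∀ i, IsConvergent (z i) ∧ constantCoeff (z i) = 0) ∧
      MvPolynomial.eval (fun p => coeff p.2.1 (z p.1)) G ≠ 0 ∧ LinIndep z ∧
      (∀ i, lin (z i) v = 0) ∧ v 0 ≠ 0 ∧ MvPolynomial.eval v Q ≠ 0 := by
  classical
  set H : MvPolynomial (IX (n + 1)) ℂ :=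
    MvPolynomial.bind₁ (mins (fun p => MvPolynomial.X p)) (Q * MvPolynomial.X 0) with hH
  have hHe : ∀ a : IX (n + 1) → ℂ, MvPolynomial.eval a H =
      MvPolynomial.eval (mins a) (Q * MvPolynomial.X 0) := by
    intro a
    rw [hH]
    have h1 : ∀ P : MvPolynomial (Fin (n + 2)) ℂ,
        MvPolynomial.eval a (MvPolynomial.bind₁ (mins (fun p => MvPolynomial.X p)) P) =
          MvPolynomial.eval (mins a) P := by
      intro P
      have h2 : (MvPolynomial.eval a).comp (MvPolynomial.bind₁
          (mins (fun p : IX (n + 1) => (MvPolynomial.X p : MvPolynomial (IX (n + 1)) ℂ)))).toRingHom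
            = MvPolynomial.eval (mins a) := by
        refine MvPolynomial.ringHom_ext (fun r => ?_) (fun j => ?_)
        · change MvPolynomial.eval a (MvPolynomial.bind₁ _ (MvPolynomial.C r)) = _
          rw [MvPolynomial.bind₁_C_right, MvPolynomial.eval_C, MvPolynomial.eval_C]
        · change MvPolynomial.eval a (MvPolynomial.bind₁ _ (MvPolynomial.X j)) = _
          rw [MvPolynomial.bind₁_X_right, MvPolynomial.eval_X, mins_map]
          congr 1
          funext p
          exact MvPolynomial.eval_X _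
      exact congrArg (fun f : MvPolynomial (Fin (n + 2)) ℂ →+* ℂ => f P) h2
    exact h1 _
  have hH0 : H ≠ 0 := by
    obtain ⟨v, hv⟩ : ∃ v : Fin (n + 2) → ℂ,
        MvPolynomial.eval v (Q * MvPolynomial.X 0) ≠ 0 := by
      by_contra hcon
      push Not at hcon
      exact (mul_ne_zero hQ (MvPolynomial.X_ne_zero 0))
        (MvPolynomial.funext fun x => by rw [hcon x, map_zero])
    have hv0 : v 0 ≠ 0 := by
      intro h
      apply hv
      rw [map_mul, MvPolynomial.eval_X, h, mul_zero]
    obtain ⟨a, ha⟩ := exists_mins v hv0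
    intro h
    apply hv
    rw [← ha, ← hHe, h, map_zero]
  have hP : G * H ≠ 0 := mul_ne_zero hG hH0
  obtain ⟨b, hb⟩ : ∃ b : IX (n + 1) → ℂ, MvPolynomial.eval b (G * H) ≠ 0 := by
    by_contra hcon
    push Not at hcon
    exact hP (MvPolynomial.funext fun x => by rw [hcon x, map_zero])
  let a : IX (n + 1) → ℂ := fun p => if p ∈ (G * H).vars then b p else 0
  have hab : MvPolynomial.eval a (G * H) = MvPolynomial.eval b (G * H) := by
    refine MvPolynomial.hom_congr_vars (f₁ := MvPolynomial.eval a) (f₂ := MvPolynomial.eval b)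
      (by ext c; simp) ?_ rfl
    intro i hi _
    rw [MvPolynomial.eval_X, MvPolynomial.eval_X]
    exact if_pos hi
  rw [← hab, map_mul] at hb
  have hG' : MvPolynomial.eval a G ≠ 0 := left_ne_zero_of_mul hb
  have hH' : MvPolynomial.eval a H ≠ 0 := right_ne_zero_of_mul hb
  rw [hHe, map_mul, MvPolynomial.eval_X] at hH'
  have hQ' : MvPolynomial.eval (mins a) Q ≠ 0 := left_ne_zero_of_mul hH'
  have h0' : mins a 0 ≠ 0 := right_ne_zero_of_mul hH'
  have hdet : (mat a).det ≠ 0 := by
    intro h
    apply h0'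
    change -(mat a).det = 0
    rw [h, neg_zero]
  let z : Fin (n + 1) → MvPowerSeries (Fin (n + 2)) ℂ :=
    fun i ν => if h : ν ≠ 0 then a (i, ⟨ν, h⟩) else 0
  have hz : ∀ i ν, coeff ν (z i) = if h : ν ≠ 0 then a (i, ⟨ν, h⟩) else 0 := fun _ _ => rfl
  have hz1 : ∀ p : IX (n + 1), coeff p.2.1 (z p.1) = a p := by
    intro p
    rw [hz, dif_pos p.2.2]
  have hzl : ∀ i j, coeff (Finsupp.single j 1) (z i) = a (ix i j) := by
    intro i j
    exact hz1 (ix i j)
  have hz0 : ∀ i, constantCoeff (z i) = 0 := by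
    intro i
    rw [← coeff_zero_eq_constantCoeff_apply, hz, dif_neg (by simp)]
  refine ⟨z, mins a, fun i => ⟨isConvergent_of_finite ?_, hz0 i⟩, ?_, ⟨hz0, ?_⟩, ?_, h0', hQ'⟩
  · refine Set.Finite.subset ((G * H).vars.image fun p => p.2.1).finite_toSet ?_
    intro ν hν
    have hν' : coeff ν (z i) ≠ 0 := hν
    rw [hz] at hν'
    by_cases h0 : ν ≠ 0
    · rw [dif_pos h0] at hν'
      have hmem : (i, (⟨ν, h0⟩ : {ν : Fin (n + 2) →₀ ℕ // ν ≠ 0})) ∈ (G * H).vars := by
        by_contra hcon
        exact hν' (if_neg hcon)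
      exact Finset.mem_coe.2 (Finset.mem_image.2 ⟨_, hmem, rfl⟩)
    · rw [dif_neg h0] at hν'
      exact absurd rfl hν'
  · have : (fun p : IX (n + 1) => coeff p.2.1 (z p.1)) = a := funext hz1
    rw [this]
    exact hG'
  · refine LinearIndependent.of_comp
      (LinearMap.funLeft ℂ ℂ (Fin.succ : Fin (n + 1) → Fin (n + 2))) ?_
    have h1 : ((LinearMap.funLeft ℂ ℂ (Fin.succ : Fin (n + 1) → Fin (n + 2))) ∘
        fun i => fun j : Fin (n + 2) => coeff (Finsupp.single j 1) (z i)) = (mat a).row := by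
      funext i j
      exact hzl i j.succ
    rw [h1, Matrix.linearIndependent_rows_iff_isUnit, Matrix.isUnit_iff_isUnit_det]
    exact isUnit_iff_ne_zero.2 hdet
  · intro i
    unfold lin
    rw [← mins_ker a i]
    exact Finset.sum_congr rfl fun j _ => by rw [hzl]

end Pool.Agent.Helper85.R2
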