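import Pool.Agent.Helper85.R2.Arc
import Pool.Agent.Helper85.R2.Gen
import Pool.Agent.Helper49.R2.Example

/-! Almost all projections are permissible and transversal, for the union of four quadratic
cones. -/

namespace Pool.Agent.Helper85.R2

open MvPowerSeries Pool.Agent.Helper38.EQ Pool.Agent.Helper49.R2
open Pool.Agent.Helper38.GP hiding exF exI

/-- If `f` does not vanish on the curve `z = 0`, the `z_i` form a set of parameters. -/
theorem isParams_of_arc {n : ℕ} {K : Type} [Field K]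
    {z : Fin n → MvPowerSeries (Fin (n + 1)) K} (hz : LinIndep z)
    {ρ : MvPowerSeries (Fin (n + 1)) K →+* PowerSeries K}
    (h1 : ∀ h, ρ h = 0 → h ∈ Ideal.span (Set.range z)) (h2 : Function.Surjective ρ)
    (h3 : ∀ h, PowerSeries.constantCoeff (ρ h) = constantCoeff h)
    {f : MvPowerSeries (Fin (n + 1)) K} (hf : constantCoeff f = 0) (hf0 : ρ f ≠ 0) :
    IsParams f z := by
  classical
  refine ⟨hz, le_antisymm ?_ ?_⟩
  · rw [(Ideal.IsMaximal.isPrime inferInstance :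
      (IsLocalRing.maximalIdeal (MvPowerSeries (Fin (n + 1)) K)).IsPrime).radical_le_iff,
      Ideal.span_le]
    rintro x (rfl | ⟨i, rfl⟩)
    · exact (mem_maximalIdeal_iff_constantCoeff _).2 hf
    · exact (mem_maximalIdeal_iff_constantCoeff _).2 (hz.1 i)
  · rw [Ideal.radical_eq_sInf]
    refine le_sInf fun P hP => ?_
    obtain ⟨hJ, hPp⟩ := hP
    have hker : ∀ h, ρ h = 0 → h ∈ P := fun h hh =>
      (Ideal.span_mono (Set.subset_insert _ _)).trans hJ (h1 h hh)
    have hfP : f ∈ P := hJ (Ideal.subset_span (Set.mem_insert _ _))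
    obtain ⟨Y, hY⟩ := h2 PowerSeries.X
    have hYP : Y ∈ P := by
      obtain ⟨k, u, hu1, hu⟩ : ∃ (k : ℕ) (u : PowerSeries K), IsUnit u ∧
          ρ f = PowerSeries.X ^ k * u := by
        obtain ⟨k, hk⟩ := IsDiscreteValuationRing.associated_pow_irreducible hf0
          (PowerSeries.X_irreducible (R := K))
        obtain ⟨u, hu⟩ := hk.symm
        exact ⟨k, u, u.isUnit, hu.symm⟩
      obtain ⟨U, hU⟩ := h2 u
      have h4 : Y ^ k * U ∈ P := by
        have h5 : Y ^ k * U - f ∈ P := hker _ (by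
          rw [map_sub, map_mul, map_pow, hY, hU, hu, sub_self])
        have h6 := P.add_mem h5 hfP
        rwa [sub_add_cancel] at h6
      have hUu : IsUnit U := by
        rw [isUnit_iff_constantCoeff, ← h3, hU]
        exact hu1.map (PowerSeries.constantCoeff (R := K))
      rcases hPp.mem_or_mem h4 with h5 | h5
      · exact hPp.mem_of_pow_mem _ h5
      · exact absurd (Ideal.eq_top_of_isUnit_mem _ h5 hUu) hPp.ne_top
    intro h hh
    rw [mem_maximalIdeal_iff_constantCoeff] at hh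
    obtain ⟨g, hg⟩ : PowerSeries.X ∣ ρ h := by
      rw [PowerSeries.X_dvd_iff, h3, hh]
    obtain ⟨G, hG⟩ := h2 g
    have h5 : h - Y * G ∈ P := hker _ (by rw [map_sub, map_mul, hY, hG, hg, sub_self])
    have h6 := P.add_mem h5 (P.mul_mem_right G hYP)
    rwa [sub_add_cancel] at h6

section HomPart

variable {n : ℕ} {K : Type} [Field K]

theorem mem_antidiag {d : ℕ} (ν : Fin n →₀ ℕ) :
    ν ∈ Finset.univ.finsuppAntidiag d ↔ ν.degree = d := by
  rw [Finset.mem_finsuppAntidiag, Finsupp.degree_eq_sum]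
  exact ⟨fun h => h.1, fun h => ⟨h, Finset.subset_univ _⟩⟩

theorem homPart_sub (f g : MvPowerSeries (Fin n) K) (d : ℕ) (v : Fin n → K) :
    homPart (f - g) d v = homPart f d v - homPart g d v := by
  unfold homPart
  rw [← Finset.sum_sub_distrib]
  exact Finset.sum_congr rfl fun ν _ => by rw [map_sub, sub_mul]

theorem homPart_eq_zero {f : MvPowerSeries (Fin n) K} {d : ℕ}
    (h : ∀ ν : Fin n →₀ ℕ, ν.degree < d + 1 → coeff ν f = 0) (v : Fin n → K) :
    homPart f d v = 0 := by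
  unfold homPart
  refine Finset.sum_eq_zero fun ν hν => ?_
  rw [mem_antidiag] at hν
  rw [h ν (by omega), zero_mul]

theorem homPart_X (i : Fin n) (v : Fin n → K) : homPart (X i) 1 v = v i := by
  classical
  unfold homPart
  rw [Finset.sum_eq_single (Finsupp.single i 1)]
  · rw [coeff_X, if_pos rfl, one_mul, Finset.prod_eq_single i]
    · rw [Finsupp.single_eq_same, pow_one]
    · intro j _ hj
      rw [Finsupp.single_eq_of_ne hj, pow_zero]
    · intro h
      exact absurd (Finset.mem_univ i) h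
  · intro ν _ hν
    rw [coeff_X, if_neg hν, zero_mul]
  · intro h
    exact absurd ((mem_antidiag _).2 (Finsupp.degree_single _ _)) h

theorem homPart_C (a : K) (v : Fin n → K) : homPart (C a : MvPowerSeries (Fin n) K) 0 v = a := by
  unfold homPart
  rw [Finset.finsuppAntidiag_zero, Finset.sum_singleton]
  simp

theorem order_X (i : Fin n) (ν : Fin n →₀ ℕ) (h : ν.degree < 1) :
    coeff ν (X i : MvPowerSeries (Fin n) K) = 0 := by
  classical
  rw [coeff_X, if_neg]
  rintro rfl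
  rw [Finsupp.degree_single] at h
  omega

end HomPart

/-- The coefficients of the leading forms. -/
def exA (K : Type) [Field K] : Fin 4 → K := ![1, 2, 3, 5]

theorem exH_eq (K : Type) [Field K] (i : Fin 4) :
    ∃ B : MvPowerSeries (Fin 4) K, exH K i = C (exA K i) * (X 1 * X 2) + B * X 1 ^ 4 := by
  have h2 : (C (2 : K) : MvPowerSeries (Fin 4) K) = 2 := map_ofNat _ 2
  have h3 : (C (3 : K) : MvPowerSeries (Fin 4) K) = 3 := map_ofNat _ 3
  have h5 : (C (5 : K) : MvPowerSeries (Fin 4) K) = 5 := map_ofNat _ 5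
  fin_cases i
  · refine ⟨1, ?_⟩
    change X 1 * X 2 + X 1 ^ 4 = C 1 * (X 1 * X 2) + 1 * X 1 ^ 4
    rw [map_one]
    ring
  · refine ⟨1, ?_⟩
    change 2 * X 1 * X 2 + X 1 ^ 4 = C 2 * (X 1 * X 2) + 1 * X 1 ^ 4
    rw [h2]
    ring
  · refine ⟨(1 + X 3) ^ 2 - 3, ?_⟩
    change 3 * X 1 * X 2 + ((1 + X 3) ^ 2 - 3) * X 1 ^ 4 =
      C 3 * (X 1 * X 2) + ((1 + X 3) ^ 2 - 3) * X 1 ^ 4
    rw [h3]
    ring
  · refine ⟨(1 + X 3) ^ 2 - 5, ?_⟩
    change 5 * X 1 * X 2 + ((1 + X 3) ^ 2 - 5) * X 1 ^ 4 =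
      C 5 * (X 1 * X 2) + ((1 + X 3) ^ 2 - 5) * X 1 ^ 4
    rw [h5]
    ring

/-- The least part of a cone. -/
theorem homPart_cone {K : Type} [Field K] (i : Fin 4) (v : Fin 4 → K) :
    (∀ ν : Fin 4 →₀ ℕ, ν.degree < 2 → coeff ν (X 0 ^ 2 - exH K i) = 0) ∧
      homPart (X 0 ^ 2 - exH K i) 2 v = v 0 ^ 2 - exA K i * v 1 * v 2 := by
  classical
  obtain ⟨B, hB⟩ := exH_eq K i
  have a1 := homPart_mul (order_X (K := K) (0 : Fin 4)) (order_X (K := K) (0 : Fin 4)) v
  have a2 := homPart_mul (order_X (K := K) (1 : Fin 4)) (order_X (K := K) (2 : Fin 4)) v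
  have a3 := homPart_mul (f := (C (exA K i) : MvPowerSeries (Fin 4) K)) (c := 0)
    (fun ν hν => absurd hν (Nat.not_lt_zero _)) a2.1 v
  have a4 : ∀ ν : Fin 4 →₀ ℕ, ν.degree < 2 + 1 →
      coeff ν (B * X 1 ^ 4 : MvPowerSeries (Fin 4) K) = 0 := by
    have h1 : B * X 1 ^ 4 ∈ IsLocalRing.maximalIdeal (MvPowerSeries (Fin 4) K) ^ 4 :=
      Ideal.mul_mem_left _ _ (Ideal.pow_mem_pow (by
        rw [mem_maximalIdeal_iff_constantCoeff, constantCoeff_X]) 4)
    intro ν hν
    apply (mem_maximalIdeal_pow_iff _ _).1 h1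
    rw [← Finsupp.degree_eq_sum]
    omega
  have h1 : X 0 ^ 2 - exH K i = X 0 * X 0 - C (exA K i) * (X 1 * X 2) - B * X 1 ^ 4 := by
    rw [hB]
    ring
  rw [h1]
  refine ⟨fun ν hν => ?_, ?_⟩
  · rw [map_sub, map_sub, a1.1 ν hν, a3.1 ν (by omega), a4 ν (by omega), sub_zero, sub_zero]
  · have a1' := a1.2
    have a2' := a2.2
    have a3' := a3.2
    rw [homPart_X] at a1'
    rw [homPart_X, homPart_X] at a2'
    rw [homPart_C, a2'] at a3'
    rw [homPart_sub, homPart_sub, homPart_eq_zero a4, sub_zero]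
    change homPart (X 0 * X 0) (1 + 1) v - homPart (C (exA K i) * (X 1 * X 2)) (0 + (1 + 1)) v = _
    rw [a1', a3']
    ring

/-- The restriction of a cone to a curve. -/
theorem arc_cone {K : Type} [Field K] (i : Fin 4)
    {ρ : MvPowerSeries (Fin 4) K →+* PowerSeries K} {c : K} (hc : c ≠ 0) {v : Fin 4 → K}
    (h3 : ∀ h, PowerSeries.constantCoeff (ρ h) = constantCoeff h)
    (h4 : ∀ j, PowerSeries.coeff 1 (ρ (X j)) = c * v j)
    (hq : v 0 ^ 2 ≠ exA K i * v 1 * v 2) : ρ (X 0 ^ 2 - exH K i) ≠ 0 := by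
  classical
  obtain ⟨B, hB⟩ := exH_eq K i
  have h0 : ∀ j, ∃ x, ρ (X j) = PowerSeries.X * x ∧ PowerSeries.constantCoeff x = c * v j := by
    intro j
    obtain ⟨x, hx⟩ : PowerSeries.X ∣ ρ (X j) := by
      rw [PowerSeries.X_dvd_iff, h3, constantCoeff_X]
    refine ⟨x, hx, ?_⟩
    rw [← h4 j, hx, ← PowerSeries.coeff_zero_eq_constantCoeff_apply, mul_comm,
      PowerSeries.coeff_succ_mul_X 0 x]
  obtain ⟨x0, hx0, e0⟩ := h0 0
  obtain ⟨x1, hx1, e1⟩ := h0 1
  obtain ⟨x2, hx2, e2⟩ := h0 2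
  have hCa : PowerSeries.constantCoeff (ρ (C (exA K i))) = exA K i := by
    rw [h3, constantCoeff_C]
  intro h
  rw [hB, map_sub, map_add, map_mul, map_mul, map_mul, map_pow, map_pow, hx0, hx1, hx2] at h
  have h5 : PowerSeries.X ^ 2 * (x0 ^ 2 - ρ (C (exA K i)) * (x1 * x2) -
      ρ B * PowerSeries.X ^ 2 * x1 ^ 4) = 0 := by
    rw [← h]
    ring
  have h6 := (mul_eq_zero.1 h5).resolve_left (pow_ne_zero _ PowerSeries.X_ne_zero)
  have h7 := congrArg (PowerSeries.constantCoeff (R := K)) h6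
  rw [map_sub, map_sub, map_mul, map_mul, map_mul, map_mul, map_pow, map_pow, map_pow,
    PowerSeries.constantCoeff_X, zero_pow two_ne_zero, mul_zero, zero_mul, sub_zero, map_zero,
    hCa, e0, e1, e2] at h7
  apply hq
  have h8 : c ^ 2 * (v 0 ^ 2 - exA K i * v 1 * v 2) = 0 := by
    rw [← h7]
    ring
  exact sub_eq_zero.1 ((mul_eq_zero.1 h8).resolve_left (pow_ne_zero _ hc))

/-- The projections whose direction is not in the tangent cone of `V` and has a nonzero
component `0` are permissible for `W` and transversal, and the `z_i` form a set of parameters. -/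
theorem good_proj_ex {K : Type} [Field K]
    (z : Fin 3 → MvPowerSeries (Fin 4) K) (hz : LinIndep z) {v : Fin 4 → K}
    (hv : ∀ i, lin (z i) v = 0) (hv0 : v 0 ≠ 0)
    (hq : ∀ i, v 0 ^ 2 ≠ exA K i * v 1 * v 2) :
    IsParams (exF K) z ∧ Permissible (exI K) z ∧ Transversal (exF K) z := by
  classical
  have hv0' : v ≠ 0 := fun h => hv0 (congrFun h 0)
  obtain ⟨ρ, c, hc, h1, h2, h3, h4⟩ := exists_arc_of_linIndep z hz hv hv0'
  refine ⟨isParams_of_arc hz h1 h2 h3 ?_ ?_, ⟨v, hv, X 0, Ideal.subset_span (by simp), ?_⟩,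
    v, 8, hv, ?_⟩
  · unfold exF
    rw [map_prod]
    refine Finset.prod_eq_zero (Finset.mem_univ 0) ?_
    rw [← coeff_zero_eq_constantCoeff_apply]
    exact (homPart_cone 0 v).1 0 (by simp)
  · unfold exF
    rw [map_prod]
    exact Finset.prod_ne_zero_iff.2 fun i _ => arc_cone i hc h3 h4 (hq i)
  · unfold lin
    rw [Finset.sum_eq_single 0]
    · rw [coeff_X, if_pos rfl, one_mul]
      exact hv0
    · intro j _ hj
      rw [coeff_X, if_neg, zero_mul]
      intro h
      exact hj (Finsupp.single_left_injective one_ne_zero h)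
    · intro h
      exact absurd (Finset.mem_univ _) h
  · have a0 := homPart_cone (K := K) 0 v
    have a1 := homPart_cone (K := K) 1 v
    have a2 := homPart_cone (K := K) 2 v
    have a3 := homPart_cone (K := K) 3 v
    have b1 := homPart_mul a0.1 a1.1 v
    have b2 := homPart_mul b1.1 a2.1 v
    have b3 := homPart_mul b2.1 a3.1 v
    have hF : exF K = (X 0 ^ 2 - exH K 0) * (X 0 ^ 2 - exH K 1) * (X 0 ^ 2 - exH K 2) *
        (X 0 ^ 2 - exH K 3) := by
      unfold exF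
      rw [Fin.prod_univ_four]
    rw [hF]
    refine ⟨b3.1, ?_⟩
    change homPart _ (2 + 2 + 2 + 2) v ≠ 0
    rw [b3.2, b2.2, b1.2, a0.2, a1.2, a2.2, a3.2]
    exact mul_ne_zero (mul_ne_zero (mul_ne_zero (sub_ne_zero.2 (hq 0)) (sub_ne_zero.2 (hq 1)))
      (sub_ne_zero.2 (hq 2))) (sub_ne_zero.2 (hq 3))

/-- Generic coefficients for the example. -/
theorem exists_generic_ex (G : MvPolynomial (Fin 3 × {ν : Fin 4 →₀ ℕ // ν ≠ 0}) ℂ) (hG : G ≠ 0) :
    ∃ (z : Fin 3 → MvPowerSeries (Fin 4) ℂ) (v : Fin 4 → ℂ),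
      (∀ i, IsConvergent (z i) ∧ constantCoeff (z i) = 0) ∧
      MvPolynomial.eval (fun p => coeff p.2.1 (z p.1)) G ≠ 0 ∧ LinIndep z ∧
      (∀ i, lin (z i) v = 0) ∧ v 0 ≠ 0 ∧ v 2 ≠ 0 ∧ ∀ i, v 0 ^ 2 ≠ exA ℂ i * v 1 * v 2 := by
  classical
  have hQ : (MvPolynomial.X 2 * ∏ i, (MvPolynomial.X 0 ^ 2 -
      MvPolynomial.C (exA ℂ i) * MvPolynomial.X 1 * MvPolynomial.X 2) :
      MvPolynomial (Fin 4) ℂ) ≠ 0 := by
    intro h
    have h1 := congrArg (MvPolynomial.eval (fun j : Fin 4 => if j = 1 then (0 : ℂ) else 1)) h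
    simp at h1
  obtain ⟨z, v, h1, h2, h3, h4, h5, h6⟩ := exists_generic_of (n := 2) G hG _ hQ
  rw [map_mul, MvPolynomial.eval_X, map_prod] at h6
  refine ⟨z, v, h1, h2, h3, h4, h5, left_ne_zero_of_mul h6, fun i => ?_⟩
  have h7 := Finset.prod_ne_zero_iff.1 (right_ne_zero_of_mul h6) i (Finset.mem_univ i)
  simp only [map_sub, map_pow, map_mul, MvPolynomial.eval_X, MvPolynomial.eval_C] at h7
  exact sub_ne_zero.1 h7

end Pool.Agent.Helper85.R2
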