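import Pool.Agent.Helper38.GP.NegA

/-! The restriction of power series to the curve `z = 0`. -/

namespace Pool.Agent.Helper85.R2

open MvPowerSeries Pool.Agent.Helper38.EQ Pool.Agent.Helper38.GP

/-- A power series with coefficients in an ideal generated by finitely many elements is in the
ideal generated by these elements. -/
theorem mem_span_C {n : ℕ} {K : Type} [Field K] {φ : PowerSeries (MvPowerSeries (Fin n) K)}
    (h : ∀ k, constantCoeff (PowerSeries.coeff k φ) = 0) :
    φ ∈ Ideal.span (Set.range fun i : Fin n =>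
      (PowerSeries.C (X i) : PowerSeries (MvPowerSeries (Fin n) K))) := by
  classical
  have h1 : ∀ k, ∃ c : Fin n → MvPowerSeries (Fin n) K,
      ∑ i, c i * X i = PowerSeries.coeff k φ := by
    intro k
    have h2 : PowerSeries.coeff k φ ∈ IsLocalRing.maximalIdeal (MvPowerSeries (Fin n) K) := by
      rw [mem_maximalIdeal_iff_constantCoeff]
      exact h k
    rw [maximalIdeal_eq_span_X] at h2
    exact (Ideal.mem_span_range_iff_exists_fun).1 h2
  choose c hc using h1
  have h3 : φ = ∑ i, (PowerSeries.mk fun k => c k i) * PowerSeries.C (X i) := by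
    ext1 k
    rw [map_sum, ← hc k]
    exact Finset.sum_congr rfl fun i _ => by rw [PowerSeries.coeff_mul_C, PowerSeries.coeff_mk]
  rw [h3]
  exact Ideal.sum_mem _ fun i _ => Ideal.mul_mem_left _ _ (Ideal.subset_span ⟨i, rfl⟩)

/-- The vector of the traces is proportional to `v`. -/
theorem exists_smul_tr {n : ℕ} {K : Type} [Field K]
    (z : Fin n → MvPowerSeries (Fin (n + 1)) K) (hz : LinIndep z) (p : Proj n K)
    (hp : ∀ i, p.σ (z i) = PowerSeries.C (X i)) {v : Fin (n + 1) → K}
    (hv : ∀ i, lin (z i) v = 0) (hv0 : v ≠ 0) :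
    ∃ c : K, c ≠ 0 ∧ ∀ j, p.tr (X j) = c * v j := by
  classical
  let t : Fin (n + 1) → K := fun j => p.tr (X j)
  have ht : ∀ i, lin (z i) t = 0 := by
    intro i
    rw [← p.tr_eq_lin]
    unfold Proj.tr
    rw [hp i, PowerSeries.coeff_C, if_neg one_ne_zero, map_zero]
  have ht0 : t ≠ 0 := by
    intro h
    have h1 : p.tr (p.σ.symm PowerSeries.X) = 1 := by
      unfold Proj.tr
      rw [AlgEquiv.apply_symm_apply, PowerSeries.coeff_one_X, map_one]
    rw [p.tr_eq_lin] at h1
    change lin _ t = 1 at h1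
    rw [h] at h1
    unfold lin at h1
    simp at h1
  let M : Matrix (Fin n) (Fin (n + 1)) K := Matrix.of fun i j => coeff (Finsupp.single j 1) (z i)
  have hM : ∀ x : Fin (n + 1) → K, (∀ i, lin (z i) x = 0) → x ∈ LinearMap.ker M.mulVecLin := by
    intro x hx
    rw [LinearMap.mem_ker]
    funext i
    exact hx i
  have hrank : Module.finrank K (LinearMap.ker M.mulVecLin) = 1 := by
    have h1 : M.rank = n := by
      have h2 : LinearIndependent K M.row := hz.2
      rw [h2.rank_matrix, Fintype.card_fin]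
    have h2 := LinearMap.finrank_range_add_finrank_ker M.mulVecLin
    have h3 : Module.finrank K (LinearMap.range M.mulVecLin) = n := h1
    rw [h3, Module.finrank_fintype_fun_eq_card, Fintype.card_fin] at h2
    omega
  have hvne : (⟨v, hM v hv⟩ : LinearMap.ker M.mulVecLin) ≠ 0 := by
    intro h
    exact hv0 (congrArg Subtype.val h)
  obtain ⟨c, hc⟩ := (finrank_eq_one_iff_of_nonzero' _ hvne).1 hrank ⟨t, hM t ht⟩
  have hc' : c • v = t := congrArg Subtype.val hc
  have hc0 : c ≠ 0 := by
    rintro rfl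
    apply ht0
    rw [← hc', zero_smul]
  exact ⟨c, hc0, fun j => (congrFun hc' j).symm⟩

/-- The restriction to the curve `z = 0`. -/
theorem exists_arc_of_linIndep {n : ℕ} {K : Type} [Field K]
    (z : Fin n → MvPowerSeries (Fin (n + 1)) K) (hz : LinIndep z) {v : Fin (n + 1) → K}
    (hv : ∀ i, lin (z i) v = 0) (hv0 : v ≠ 0) :
    ∃ (ρ : MvPowerSeries (Fin (n + 1)) K →+* PowerSeries K) (c : K), c ≠ 0 ∧
      (∀ h, ρ h = 0 → h ∈ Ideal.span (Set.range z)) ∧ Function.Surjective ρ ∧
      (∀ h, PowerSeries.constantCoeff (ρ h) = constantCoeff h) ∧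
      ∀ j, PowerSeries.coeff 1 (ρ (X j)) = c * v j := by
  classical
  obtain ⟨p, hp⟩ := exists_proj_of_linIndep z hz
  obtain ⟨c, hc, hcv⟩ := exists_smul_tr z hz p hp hv hv0
  let ρ : MvPowerSeries (Fin (n + 1)) K →+* PowerSeries K :=
    (PowerSeries.map (constantCoeff (σ := Fin n) (R := K))).comp
      (p.σ : SL n K →+* PowerSeries (R1 n K))
  have hρ : ∀ h k, PowerSeries.coeff k (ρ h) = constantCoeff (PowerSeries.coeff k (p.σ h)) := by
    intro h k
    change PowerSeries.coeff k (PowerSeries.map constantCoeff (p.σ h)) = _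
    rw [PowerSeries.coeff_map]
  refine ⟨ρ, c, hc, fun h hh => ?_, fun φ => ?_, fun h => ?_, fun j => ?_⟩
  · have h1 : p.σ h ∈ Ideal.span (Set.range fun i : Fin n =>
        (PowerSeries.C (X i) : PowerSeries (MvPowerSeries (Fin n) K))) := by
      apply mem_span_C
      intro k
      rw [← hρ, hh, map_zero]
    have h2 : Ideal.span (Set.range fun i : Fin n =>
        (PowerSeries.C (X i) : PowerSeries (MvPowerSeries (Fin n) K))) ≤
        Ideal.comap (p.σ.symm : PowerSeries (R1 n K) →+* SL n K) (Ideal.span (Set.range z)) := by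
      rw [Ideal.span_le]
      rintro _ ⟨i, rfl⟩
      change p.σ.symm (PowerSeries.C (X i)) ∈ Ideal.span (Set.range z)
      rw [← hp i, AlgEquiv.symm_apply_apply]
      exact Ideal.subset_span ⟨i, rfl⟩
    have h3 : p.σ.symm (p.σ h) ∈ Ideal.span (Set.range z) := h2 h1
    rwa [AlgEquiv.symm_apply_apply] at h3
  · refine ⟨p.σ.symm (PowerSeries.map (C (σ := Fin n) (R := K)) φ), ?_⟩
    ext1 k
    rw [hρ, AlgEquiv.apply_symm_apply, PowerSeries.coeff_map, constantCoeff_C]
  · let φ : MvPowerSeries (Fin (n + 1)) K →+* K := (PowerSeries.constantCoeff (R := K)).comp ρ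
    have h1 : h - C (constantCoeff h) ∈
        IsLocalRing.maximalIdeal (MvPowerSeries (Fin (n + 1)) K) := by
      rw [mem_maximalIdeal_iff_constantCoeff, map_sub, constantCoeff_C, sub_self]
    have h2 : ∀ x ∈ IsLocalRing.maximalIdeal (MvPowerSeries (Fin (n + 1)) K),
        PowerSeries.constantCoeff (ρ x) = 0 := by
      intro x hx
      by_contra hcon
      have h3 : IsUnit (p.σ x) := by
        rw [PowerSeries.isUnit_iff_constantCoeff, isUnit_iff_constantCoeff,
          ← PowerSeries.coeff_zero_eq_constantCoeff_apply, ← hρ,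
          PowerSeries.coeff_zero_eq_constantCoeff_apply]
        exact isUnit_iff_ne_zero.2 hcon
      have h4 := h3.map (p.σ.symm : PowerSeries (R1 n K) →* SL n K)
      have h5 : (p.σ.symm : PowerSeries (R1 n K) →* SL n K) (p.σ x) = x :=
        p.σ.symm_apply_apply x
      rw [h5] at h4
      exact (IsLocalRing.mem_maximalIdeal x).1 hx h4
    have h3 := h2 _ h1
    rw [map_sub, map_sub, sub_eq_zero] at h3
    rw [h3, ← PowerSeries.coeff_zero_eq_constantCoeff_apply, hρ]
    have h4 : (C (constantCoeff h) : MvPowerSeries (Fin (n + 1)) K) = algebraMap K _ _ := rfl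
    rw [h4, AlgEquiv.commutes, PowerSeries.algebraMap_apply, PowerSeries.coeff_zero_C]
    rfl
  · rw [hρ]
    exact hcv j

end Pool.Agent.Helper85.R2
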